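import Pool.Agent.TH84.SF.Spec

set_option autoImplicit false

/-!
# (A) the automaton on labellings
-/

namespace Pool.Agent.T9h73.SF

open Pool.Agent.TH84.SF

open Classical in
theorem sA : S_A := by
  intro G A V _ _ _ X M M' B r xs hbad s Wp W' F U U' hM' hB h1 hM hWM hWF hMF hEx hU
  -- the automaton
  let T : (V → A) → V → A := fun m v =>
    if h : v ∉ U' ∧ ∃ x ∈ X, ∀ w ∈ W', m (s w v) = x w then r h.2.choose else m v
  have hT : ∀ m ∈ AdmSet X s W' U', ∀ v, v ∉ U' → ∀ x ∈ X, (∀ g ∈ M, m (s g v) = x g) →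
      T m v = r x := by
    intro m hm v hv x hx hmx
    have h : v ∉ U' ∧ ∃ x ∈ X, ∀ w ∈ W', m (s w v) = x w := ⟨hv, hm v hv⟩
    show (if h : v ∉ U' ∧ ∃ x ∈ X, ∀ w ∈ W', m (s w v) = x w then r h.2.choose else m v) = r x
    rw [dif_pos h]
    refine hbad.loc _ h.2.choose_spec.1 x hx fun g hg => ?_
    rw [← h.2.choose_spec.2 g (hM hg), hmx g hg]
  -- the key computation
  have key : ∀ m ∈ AdmSet X s W' U', ∀ v, v ∉ U → ∀ x ∈ X, (∀ w ∈ W', m (s w v) = x w) →
      ∀ w ∈ Wp, T m (s w v) = r (tr w x) := by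
    intro m hm v hv x hx hmx w hw
    refine hT m hm (s w v) ((hU v hv).2 w hw) (tr w x) (hbad.inv w x hx) fun g hg => ?_
    rw [(hEx v hv).2.1 w (hWF hw) g (hMF hg), hmx (w * g) (hWM w hw g hg)]
    rfl
  have hTZ : ∀ m ∈ AdmSet X s W' U', T m ∈ ZSet X s Wp U B xs := by
    intro m hm
    refine ⟨fun v hv => ?_, fun v hv => ?_⟩
    · obtain ⟨x, hx, hmx⟩ := hm v (hU v hv).1
      exact ⟨fun g => r (tr g x), hbad.img x hx, fun w hw => key m hm v hv x hx hmx w hw⟩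
    · obtain ⟨x, hx, hmx⟩ := hm v (hU v hv).1
      obtain ⟨b, hb, hne⟩ := hbad.miss x hx
      exact ⟨b, hb, by rw [key m hm v hv x hx hmx b (hB hb)]; exact hne⟩
  have hinj : ∀ m ∈ AdmSet X s W' U', ∀ m' ∈ AdmSet X s W' U', (∀ v ∈ U, m v = m' v) →
      T m = T m' → m = m' := by
    intro m hm m' hm' hUU hTT
    funext v
    by_cases hv : v ∈ U
    · exact hUU v hv
    · obtain ⟨x, hx, hmx⟩ := hm v (hU v hv).1
      obtain ⟨x', hx', hmx'⟩ := hm' v (hU v hv).1
      have h2 : x 1 = x' 1 := by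
        refine hbad.back x hx x' hx' fun g hg => ?_
        rw [← key m hm v hv x hx hmx g (hM' hg), ← key m' hm' v hv x' hx' hmx' g (hM' hg), hTT]
      have h3 := hmx 1 h1
      have h4 := hmx' 1 h1
      rw [(hEx v hv).1] at h3 h4
      rw [h3, h4, h2]
  let Φ : (AdmSet X s W' U') → (U → A) × (ZSet X s Wp U B xs) := fun m =>
    (fun v => m.1 v.1, ⟨T m.1, hTZ m.1 m.2⟩)
  have hΦ : Function.Injective Φ := by
    intro m m' h
    have h2 : (fun v : U => m.1 v.1) = fun v : U => m'.1 v.1 := congrArg Prod.fst h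
    have h3 : T m.1 = T m'.1 := congrArg (fun p => (p.2 : ZSet X s Wp U B xs).1) h
    exact Subtype.ext (hinj m.1 m.2 m'.1 m'.2 (fun v hv => congrFun h2 ⟨v, hv⟩) h3)
  have h5 := Nat.card_le_card_of_injective Φ hΦ
  rw [Nat.card_prod, Nat.card_fun] at h5
  simpa using h5

end Pool.Agent.T9h73.SF
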