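import Pool.Agent.TH84.SF.Spec

set_option autoImplicit false

/-!
# (V) over a sofic group a subshift with a point of finite orbit has sofic models
-/

namespace Pool.Agent.T9h73.SF

open Pool.Agent.TH84.SF

open Classical in
theorem sV : S_V := by
  intro G A _ X hsof hinv hfin F W ε hε
  obtain ⟨x₀, hx₀, hO⟩ := hfin
  let O : Set (G → A) := Set.range (fun g : G => fun h : G => x₀ (g⁻¹ * h))
  have hOfin : Finite O := hO
  have hOX : ∀ o ∈ O, o ∈ X := by
    rintro o ⟨g, rfl⟩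
    exact hinv g x₀ hx₀
  have hOtr : ∀ g : G, ∀ o ∈ O, tr g o ∈ O := by
    rintro g o ⟨k, rfl⟩
    refine ⟨g⁻¹ * k, ?_⟩
    funext h
    show x₀ ((g⁻¹ * k)⁻¹ * h) = x₀ (k⁻¹ * (g * h))
    congr 1
    group
  -- the finite set
  let F1 : Finset G := insert 1 (F ∪ F.image (fun g => g⁻¹) ∪
    (F ×ˢ F).image (fun p => p.1 * p.2⁻¹))
  have h1F : (1 : G) ∈ F1 := Finset.mem_insert_self _ _
  have hF : ∀ g ∈ F, g ∈ F1 := fun g hg => by
    simp only [F1, Finset.mem_insert, Finset.mem_union]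
    exact Or.inr (Or.inl (Or.inl hg))
  have hFi : ∀ g ∈ F, g⁻¹ ∈ F1 := fun g hg => by
    simp only [F1, Finset.mem_insert, Finset.mem_union, Finset.mem_image]
    exact Or.inr (Or.inl (Or.inr ⟨g, hg, rfl⟩))
  have hFF : ∀ g ∈ F, ∀ h ∈ F, g * h⁻¹ ∈ F1 := fun g hg h hh => by
    simp only [F1, Finset.mem_insert, Finset.mem_union, Finset.mem_image, Finset.mem_product]
    exact Or.inr (Or.inr ⟨(g, h), ⟨hg, hh⟩, rfl⟩)
  have hn : (0 : ℝ) < (F1.card : ℝ) ^ 2 + F1.card := by
    have : 0 < F1.card := Finset.card_pos.2 ⟨1, h1F⟩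
    positivity
  obtain ⟨V, iV, nV, σ, hσ⟩ := hsof F1 (ε / ((F1.card : ℝ) ^ 2 + F1.card)) (by positivity)
  set δ : ℝ := ε / ((F1.card : ℝ) ^ 2 + F1.card) with hδ
  -- the bad vertices
  let b1 : G × G → Finset V := fun p => Finset.univ.filter fun v => σ (p.1 * p.2) v ≠ σ p.1 (σ p.2 v)
  let b2 : G → Finset V := fun g => if g = 1 then ∅ else Finset.univ.filter fun v => σ g v = v
  let Bd : Finset V := (F1 ×ˢ F1).biUnion b1 ∪ F1.biUnion b2
  have hb1 : ∀ p ∈ F1 ×ˢ F1, ((b1 p).card : ℝ) ≤ δ * Fintype.card V := by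
    intro p hp
    rw [Finset.mem_product] at hp
    have h2 := (hσ p.1 hp.1 p.2 hp.2).1
    have h3 : Nat.card {v : V // σ (p.1 * p.2) v = σ p.1 (σ p.2 v)} =
        (Finset.univ.filter fun v => σ (p.1 * p.2) v = σ p.1 (σ p.2 v)).card := by
      rw [Nat.card_eq_fintype_card, Fintype.card_subtype]
    have h4 : (Finset.univ.filter fun v => σ (p.1 * p.2) v = σ p.1 (σ p.2 v)).card + (b1 p).card =
        Fintype.card V := by
      rw [← Finset.card_univ]
      exact Finset.card_filter_add_card_filter_not _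
    rw [h3, Nat.card_eq_fintype_card] at h2
    have h5 : (((Finset.univ.filter fun v => σ (p.1 * p.2) v = σ p.1 (σ p.2 v)).card : ℕ) : ℝ) +
        ((b1 p).card : ℝ) = Fintype.card V := by exact_mod_cast h4
    linarith
  have hb2 : ∀ g ∈ F1, ((b2 g).card : ℝ) ≤ δ * Fintype.card V := by
    intro g hg
    by_cases h : g = 1
    · simp only [b2, if_pos h, Finset.card_empty, Nat.cast_zero]
      positivity
    · have h2 := (hσ g hg g hg).2 h
      have h3 : Nat.card {v : V // σ g v ≠ v} =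
          (Finset.univ.filter fun v => σ g v ≠ v).card := by
        rw [Nat.card_eq_fintype_card, Fintype.card_subtype]
      have h4 : (b2 g).card + (Finset.univ.filter fun v => σ g v ≠ v).card = Fintype.card V := by
        simp only [b2, if_neg h]
        rw [← Finset.card_univ]
        exact Finset.card_filter_add_card_filter_not _
      rw [h3, Nat.card_eq_fintype_card] at h2
      have h5 : ((b2 g).card : ℝ) + (((Finset.univ.filter fun v => σ g v ≠ v).card : ℕ) : ℝ) =
          Fintype.card V := by exact_mod_cast h4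
      linarith
  have hBd : (Bd.card : ℝ) ≤ ε * Fintype.card V := by
    have h2 : (Bd.card : ℝ) ≤ (∑ p ∈ F1 ×ˢ F1, ((b1 p).card : ℝ)) + ∑ g ∈ F1, ((b2 g).card : ℝ) := by
      have h3 : Bd.card ≤ (∑ p ∈ F1 ×ˢ F1, (b1 p).card) + ∑ g ∈ F1, (b2 g).card :=
        (Finset.card_union_le _ _).trans (add_le_add Finset.card_biUnion_le Finset.card_biUnion_le)
      exact_mod_cast h3
    have h3 := Finset.sum_le_sum hb1
    have h4 := Finset.sum_le_sum hb2
    rw [Finset.sum_const, nsmul_eq_mul, Finset.card_product] at h3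
    rw [Finset.sum_const, nsmul_eq_mul] at h4
    have h5 : δ * ((F1.card : ℝ) ^ 2 + F1.card) = ε := by
      rw [hδ]
      field_simp
    push_cast at h3
    calc (Bd.card : ℝ) ≤ (F1.card : ℝ) * F1.card * (δ * Fintype.card V) +
          F1.card * (δ * Fintype.card V) := by linarith
      _ = (δ * ((F1.card : ℝ) ^ 2 + F1.card)) * Fintype.card V := by ring
      _ = _ := by rw [h5]
  have hgood1 : ∀ v, v ∉ Bd → ∀ g ∈ F1, ∀ h ∈ F1, σ (g * h) v = σ g (σ h v) := by
    intro v hv g hg h hh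
    by_contra hne
    exact hv (Finset.mem_union_left _ (Finset.mem_biUnion.2 ⟨(g, h), Finset.mem_product.2 ⟨hg, hh⟩,
      Finset.mem_filter.2 ⟨Finset.mem_univ _, hne⟩⟩))
  have hgood2 : ∀ v, v ∉ Bd → ∀ g ∈ F1, g ≠ 1 → σ g v ≠ v := by
    intro v hv g hg hg1 he
    refine hv (Finset.mem_union_right _ (Finset.mem_biUnion.2 ⟨g, hg, ?_⟩))
    simp only [b2, if_neg hg1]
    exact Finset.mem_filter.2 ⟨Finset.mem_univ _, he⟩
  have hone : ∀ v, v ∉ Bd → σ 1 v = v := by
    intro v hv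
    have h2 := hgood1 v hv 1 h1F 1 h1F
    rw [mul_one] at h2
    exact ((σ 1).injective h2).symm
  -- the action on the orbit
  let τ : G → Equiv.Perm O := fun g =>
    { toFun := fun o => ⟨tr g o.1, hOtr g o.1 o.2⟩
      invFun := fun o => ⟨tr g⁻¹ o.1, hOtr g⁻¹ o.1 o.2⟩
      left_inv := fun o => by
        apply Subtype.ext
        funext h
        show o.1 (g * (g⁻¹ * h)) = o.1 h
        rw [mul_inv_cancel_left]
      right_inv := fun o => by
        apply Subtype.ext
        funext h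
        show o.1 (g⁻¹ * (g * h)) = o.1 h
        rw [inv_mul_cancel_left] }
  have fO : Fintype O := Fintype.ofFinite O
  have nO : Nonempty O := ⟨⟨_, 1, rfl⟩⟩
  refine ⟨V × O, inferInstance, inferInstance, fun g => Equiv.prodCongr (σ g⁻¹) (τ g),
    fun p => p.2.1 1, Bd ×ˢ Finset.univ, ?_, ?_, ?_⟩
  · rw [Finset.card_product, Finset.card_univ, Fintype.card_prod]
    push_cast
    rw [← mul_assoc]
    exact mul_le_mul_of_nonneg_right hBd (Nat.cast_nonneg _)
  · rintro ⟨v, o⟩ hv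
    have hv' : v ∉ Bd := fun h => hv (Finset.mem_product.2 ⟨h, Finset.mem_univ _⟩)
    refine ⟨?_, ?_, ?_⟩
    · show (σ (1 : G)⁻¹ v, τ 1 o) = (v, o)
      rw [inv_one, hone v hv']
      congr 1
      apply Subtype.ext
      funext h
      show o.1 (1 * h) = o.1 h
      rw [one_mul]
    · intro g hg h hh
      show (σ h⁻¹ (σ g⁻¹ v), τ h (τ g o)) = (σ (g * h)⁻¹ v, τ (g * h) o)
      rw [mul_inv_rev, hgood1 v hv' h⁻¹ (hFi h hh) g⁻¹ (hFi g hg)]
      congr 1
      apply Subtype.ext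
      funext k
      show o.1 (g * (h * k)) = o.1 (g * h * k)
      rw [mul_assoc]
    · intro g hg h hh he
      have he1 : σ g⁻¹ v = σ h⁻¹ v := congrArg Prod.fst he
      by_contra hne
      have h2 := hgood1 v hv' g (hF g hg) g⁻¹ (hFi g hg)
      have h3 := hgood1 v hv' g (hF g hg) h⁻¹ (hFi h hh)
      rw [mul_inv_cancel, hone v hv', he1, ← h3] at h2
      exact hgood2 v hv' (g * h⁻¹) (hFF g hg h hh) (fun h4 => hne (mul_inv_eq_one.1 h4)) h2.symm
  · rintro ⟨v, o⟩ _
    refine ⟨o.1, hOX o.1 o.2, fun w _ => ?_⟩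
    show o.1 (w * 1) = o.1 w
    rw [mul_one]

end Pool.Agent.T9h73.SF
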